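import Pool.Agent.U737.MN.Stm

/-! totally split primes go down (package SplDown of project MN) -/

set_option autoImplicit false
set_option linter.style.haveILetI false

open NumberField Ideal

namespace Pool.Agent.U980.MN

theorem ncard_le (K L : Type) [Field K] [NumberField K] [Field L] [NumberField L] [Algebra K L]
    (p : Ideal (𝓞 K)) (hp : p.IsPrime) (hp0 : p ≠ ⊥) :
    Set.ncard (p.primesOver (𝓞 L)) ≤ Module.finrank K L := by
  haveI : p.IsMaximal := hp.isMaximal hp0
  have hsum := sum_ramification_inertia (𝓞 L) K L hp0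
  rw [← IsDedekindDomain.coe_primesOverFinset hp0 (𝓞 L), Set.ncard_coe_finset, ← hsum,
    Finset.card_eq_sum_ones]
  refine Finset.sum_le_sum ?_
  intro Q hQ
  have hQ' := (IsDedekindDomain.mem_primesOverFinset_iff hp0 (𝓞 L)).mp hQ
  haveI : Q.IsPrime := hQ'.1
  haveI : Q.LiesOver p := hQ'.2
  refine Right.one_le_mul ?_ ?_
  · exact Nat.pos_iff_ne_zero.mpr <| IsDedekindDomain.ramificationIdx'_ne_zero_of_liesOver _ hp0
  · exact Nat.pos_iff_ne_zero.mpr <| inertiaDeg'_ne_zero p Q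

theorem t_SplDown : Pool.Agent.U737.MN.SplDown := by
  intro K M N _ _ _ _ _ _ _ _ _ _ p hp
  obtain ⟨hp, hp0, hc⟩ := hp
  refine ⟨hp, hp0, le_antisymm (ncard_le K M p hp hp0) ?_⟩
  haveI : p.IsMaximal := hp.isMaximal hp0
  haveI := hp
  have hsub : (p.primesOver (𝓞 N)) ⊆
      ⋃ P ∈ IsDedekindDomain.primesOverFinset p (𝓞 M), P.primesOver (𝓞 N) := by
    intro Q hQ
    haveI : Q.IsPrime := hQ.1
    haveI : Q.LiesOver p := hQ.2
    simp only [Set.mem_iUnion]
    refine ⟨Q.under (𝓞 M), ?_, ⟨hQ.1, ⟨rfl⟩⟩⟩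
    rw [IsDedekindDomain.mem_primesOverFinset_iff hp0]
    refine ⟨inferInstance, ?_⟩
    exact Ideal.LiesOver.tower_bot Q (Q.under (𝓞 M)) p
  have hfin : (⋃ P ∈ IsDedekindDomain.primesOverFinset p (𝓞 M), P.primesOver (𝓞 N)).Finite := by
    refine Set.Finite.biUnion (Finset.finite_toSet _) ?_
    intro P hP
    have hP' := (IsDedekindDomain.mem_primesOverFinset_iff hp0 (𝓞 M)).mp hP
    haveI : P.IsPrime := hP'.1
    haveI : P.LiesOver p := hP'.2
    have hP0 : P ≠ ⊥ := Ideal.ne_bot_of_liesOver_of_ne_bot hp0 P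
    haveI : P.IsMaximal := hP'.1.isMaximal hP0
    rw [← IsDedekindDomain.coe_primesOverFinset hP0 (𝓞 N)]
    exact Finset.finite_toSet _
  have h1 : Module.finrank K N ≤
      (IsDedekindDomain.primesOverFinset p (𝓞 M)).card * Module.finrank M N := by
    rw [← hc]
    refine (Set.ncard_le_ncard hsub hfin).trans ?_
    refine (Finset.set_ncard_biUnion_le _ _).trans ?_
    refine Finset.sum_le_card_nsmul _ _ _ ?_
    intro P hP
    have hP' := (IsDedekindDomain.mem_primesOverFinset_iff hp0 (𝓞 M)).mp hP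
    haveI : P.LiesOver p := hP'.2
    exact ncard_le M N P hP'.1 (Ideal.ne_bot_of_liesOver_of_ne_bot hp0 P)
  have h2 : (IsDedekindDomain.primesOverFinset p (𝓞 M)).card = Set.ncard (p.primesOver (𝓞 M)) := by
    rw [← IsDedekindDomain.coe_primesOverFinset hp0 (𝓞 M), Set.ncard_coe_finset]
  rw [h2, ← Module.finrank_mul_finrank K M N] at h1
  exact Nat.le_of_mul_le_mul_right h1 Module.finrank_pos

end Pool.Agent.U980.MN
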